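import Pool.Agent.Q150.RC.TUPb

/-!
# Project RC, job TUP: the longest run is not long, for the tilted laws
-/

set_option autoImplicit false

namespace Pool.Agent.Q150.RC

open Finset MeasureTheory Filter Pool.Agent.Q120.ET Pool.Agent.Q120.ME Pool.Agent.Q120.RC
open scoped Topology

theorem Pr_mono {r : ℕ → Finset ℕ → ℝ} (hr : ∀ n T, 0 ≤ r n T ∧ r n T ≤ 1) (N : ℕ) {F G : Finset ℕ → Prop}
    (h : ∀ T, F T → G T) : Pr r N F ≤ Pr r N G := by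
  classical
  refine sum_le_sum_of_subset_of_nonneg ?_ fun T _ _ => Pool.Agent.Q299.RC.seqlaw_nonneg hr N T
  intro T hT
  rw [mem_filter] at hT ⊢
  exact ⟨hT.1, h T hT.2⟩

theorem event_eq {Ω : Type} [MeasurableSpace Ω] {μ : Measure Ω} [IsProbabilityMeasure μ] {A : Ω → Set ℕ}
    (hA : IsRandomSet A) {r : ℕ → Finset ℕ → ℝ}
    (hlaw : ∀ N T, T ⊆ range N → lawOn μ A (range N) T = seqlaw r N T) (N : ℕ) (F : Finset ℕ → Prop)
    (G : Ω → Prop) (h : ∀ ω, F (tr A (range N) ω) ↔ G ω) : μ.real {ω | G ω} = Pr r N F := by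
  classical
  have h1 := real_event (μ := μ) hA (range N) F
  have h2 : {ω | G ω} = {ω | F (tr A (range N) ω)} := by
    ext ω
    exact (h ω).symm
  rw [h2, h1]
  unfold Pr
  refine sum_congr ?_ fun T hT => hlaw N T (mem_powerset.1 (mem_filter.1 hT).1)
  ext T
  simp only [mem_filter]

theorem tr_iff {Ω : Type} [MeasurableSpace Ω] {A : Ω → Set ℕ} {N : ℕ} {ω : Ω} {j : ℕ} (hj : j < N) :
    (j ∈ ((tr A (range N) ω : Finset ℕ) : Set ℕ) ↔ j ∈ A ω) := by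
  rw [mem_coe, mem_tr, mem_range]
  exact and_iff_right hj

theorem tilt_ge_min {p b v : ℕ → ℝ} (hp : ∀ n, 0 < p n) (n : ℕ) (T : Finset ℕ) :
    min (v n) 1 * p n ≤ tilt p b v n T := by
  by_cases h : up (T : Set ℕ) n ∧ (mx (T : Set ℕ) n : ℝ) ≤ b n
  · rw [Pool.Agent.Q227.RC.tilt_pos_eq h.1 h.2]
    exact mul_le_mul_of_nonneg_right (min_le_left _ _) (hp n).le
  · rw [Pool.Agent.Q227.RC.tilt_neg_eq h]
    have := mul_le_mul_of_nonneg_right (min_le_right (v n) 1) (hp n).le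
    linarith

section
variable {κ c : ℝ} {p v : ℕ → ℝ} {Ω : Type} [MeasurableSpace Ω] {μ : Measure Ω} [IsProbabilityMeasure μ]
  {A : Ω → Set ℕ}

theorem tilt01 (hp : Mod κ c p) (hv : TiltOK p v) (n : ℕ) (T : Finset ℕ) :
    0 ≤ tilt p (fun n => 2 * b0 κ c n) v n T ∧ tilt p (fun n => 2 * b0 κ c n) v n T ≤ 1 :=
  Pool.Agent.Q227.RC.tilt_bd (fun n => ⟨hp.pos n, hp.lt_one n⟩) hv.pos hv.lt_one n T

/-- the event (N1) -/
theorem n1 (hp : Mod κ c p) (hv : TiltOK p v) (hA : Tilted κ c p v μ A) (n g : ℕ) :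
    μ.real {ω | ∀ j, n - g ≤ j → j < n → (¬ up (A ω) j ∧ j ∉ A ω)} ≤ ∏ j ∈ Ico (n - g) n, (1 - p j) := by
  have h1 := event_eq hA.rand hA.law n (fun T => (∀ j, n - g ≤ j → j < n → ¬ up (T : Set ℕ) j) ∧
    ∀ j, n - g ≤ j → j < n → j ∉ T) (fun ω => ∀ j, n - g ≤ j → j < n → (¬ up (A ω) j ∧ j ∉ A ω)) (by
    intro ω
    have hup : ∀ j, j < n → (up ((tr A (range n) ω : Finset ℕ) : Set ℕ) j ↔ up (A ω) j) :=
      fun j hj => up_congr fun i hi => tr_iff (by omega)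
    have hmem : ∀ j, j < n → (j ∈ tr A (range n) ω ↔ j ∈ A ω) := fun j hj => tr_iff hj
    constructor
    · rintro ⟨h1, h2⟩ j h3 h4
      exact ⟨fun h5 => h1 j h3 h4 ((hup j h4).2 h5), fun h5 => h2 j h3 h4 ((hmem j h4).2 h5)⟩
    · intro h
      exact ⟨fun j h3 h4 h5 => (h j h3 h4).1 ((hup j h4).1 h5),
        fun j h3 h4 h5 => (h j h3 h4).2 ((hmem j h4).1 h5)⟩)
  rw [h1]
  have h2 := Pr_window (tilt01 hp hv) (Nat.sub_le n g) p (fun T => ∀ j, n - g ≤ j → j < n → ¬ up (T : Set ℕ) j)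
    (fun T _ hT j h3 h4 => by
      rw [Pool.Agent.Q227.RC.tilt_neg_eq (fun h5 => hT j h3 h4 h5.1)])
  refine h2.trans ?_
  have h3 : 0 ≤ ∏ j ∈ Ico (n - g) n, (1 - p j) := prod_nonneg fun j _ => by linarith [hp.lt_one j]
  exact mul_le_of_le_one_right h3 (Pr_le_one (tilt01 hp hv) _ _)

/-- the event (N2) -/
theorem n2 (hp : Mod κ c p) (hv : TiltOK p v) (hA : Tilted κ c p v μ A) (n y M : ℕ) :
    μ.real {ω | (up (A ω) n ∧ mx (A ω) n ≤ M) ∧ ∀ j, n ≤ j → j < n + y → j ∉ A ω} ≤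
      (∏ j ∈ Ico n (n + y), (1 - min (v j) 1 * p j)) *
        Pr (tilt p (fun n => 2 * b0 κ c n) v) n (fun T => up (T : Set ℕ) n ∧ mx (T : Set ℕ) n ≤ M) := by
  have h1 := event_eq hA.rand hA.law (n + y) (fun T => (up (T : Set ℕ) n ∧ mx (T : Set ℕ) n ≤ M) ∧
    ∀ j, n ≤ j → j < n + y → j ∉ T)
    (fun ω => (up (A ω) n ∧ mx (A ω) n ≤ M) ∧ ∀ j, n ≤ j → j < n + y → j ∉ A ω) (by
    intro ω
    have hup : up ((tr A (range (n + y)) ω : Finset ℕ) : Set ℕ) n ↔ up (A ω) n :=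
      up_congr fun i hi => tr_iff (by omega)
    have hmx : mx ((tr A (range (n + y)) ω : Finset ℕ) : Set ℕ) n = mx (A ω) n :=
      mx_congr fun i hi => tr_iff (by omega)
    have hmem : ∀ j, j < n + y → (j ∈ tr A (range (n + y)) ω ↔ j ∈ A ω) := fun j hj => tr_iff hj
    rw [hup, hmx]
    refine and_congr_right fun _ => ?_
    constructor
    · intro h j h3 h4 h5
      exact h j h3 h4 ((hmem j h4).2 h5)
    · intro h j h3 h4 h5
      exact h j h3 h4 ((hmem j h4).1 h5))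
  rw [h1]
  exact Pr_window (tilt01 hp hv) (Nat.le_add_right n y) (fun j => min (v j) 1 * p j)
    (fun T => up (T : Set ℕ) n ∧ mx (T : Set ℕ) n ≤ M) (fun T _ _ j _ _ => tilt_ge_min hp.pos j T)

/-- an empty window -/
theorem n3 (hp : Mod κ c p) (hv : TiltOK p v) (hA : Tilted κ c p v μ A) (n y : ℕ) :
    μ.real {ω | ∀ j, n ≤ j → j < n + y → j ∉ A ω} ≤ ∏ j ∈ Ico n (n + y), (1 - min (v j) 1 * p j) := by
  have h1 := event_eq hA.rand hA.law (n + y) (fun T => True ∧ ∀ j, n ≤ j → j < n + y → j ∉ T)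
    (fun ω => ∀ j, n ≤ j → j < n + y → j ∉ A ω) (by
    intro ω
    have hmem : ∀ j, j < n + y → (j ∈ tr A (range (n + y)) ω ↔ j ∈ A ω) := fun j hj => tr_iff hj
    rw [true_and]
    constructor
    · intro h j h3 h4 h5
      exact h j h3 h4 ((hmem j h4).2 h5)
    · intro h j h3 h4 h5
      exact h j h3 h4 ((hmem j h4).1 h5))
  rw [h1]
  have h2 := Pr_window (tilt01 hp hv) (Nat.le_add_right n y) (fun j => min (v j) 1 * p j)
    (fun _ => True) (fun T _ _ j _ _ => tilt_ge_min hp.pos j T)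
  refine h2.trans ?_
  refine mul_le_of_le_one_right (prod_nonneg fun j _ => ?_) (Pr_le_one (tilt01 hp hv) _ _)
  have h3 := mul_le_mul_of_nonneg_right (min_le_right (v j) 1) (hp.pos j).le
  linarith [hp.lt_one j]

theorem ae_n1 (hκ : 0 < κ) (hc : 0 < c) (hp : Mod κ c p) (hv : TiltOK p v) (hA : Tilted κ c p v μ A)
    {ε : ℝ} (hε : 0 < ε) : ∀ᵐ ω ∂μ, ∀ᶠ n : ℕ in atTop,
      ¬ ∀ j, n - ⌊(1 + ε) * b0 κ c n⌋₊ ≤ j → j < n → (¬ up (A ω) j ∧ j ∉ A ω) := by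
  have hsum : Summable (fun n : ℕ => μ.real {ω | ∀ j, n - ⌊(1 + ε) * b0 κ c n⌋₊ ≤ j → j < n →
      (¬ up (A ω) j ∧ j ∉ A ω)}) :=
    Summable.of_nonneg_of_le (fun _ => measureReal_nonneg) (fun n => n1 hp hv hA n _)
      (Pool.Agent.Q237.RC.window_summable hκ hc hp hε)
  have hne : ∑' n : ℕ, μ {ω | ∀ j, n - ⌊(1 + ε) * b0 κ c n⌋₊ ≤ j → j < n →
      (¬ up (A ω) j ∧ j ∉ A ω)} ≠ ⊤ := by
    have h1 := hsum.tsum_ofReal_ne_top
    have h2 : ∀ n : ℕ, ENNReal.ofReal (μ.real {ω | ∀ j, n - ⌊(1 + ε) * b0 κ c n⌋₊ ≤ j → j < n →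
        (¬ up (A ω) j ∧ j ∉ A ω)}) = μ {ω | ∀ j, n - ⌊(1 + ε) * b0 κ c n⌋₊ ≤ j → j < n →
        (¬ up (A ω) j ∧ j ∉ A ω)} := fun k => ofReal_measureReal (measure_ne_top _ _)
    rwa [tsum_congr h2] at h1
  exact ae_eventually_notMem hne

theorem ae_n2 (hκ : 0 < κ) (hc : 0 < c) (hp : Mod κ c p) (hv : TiltOK p v) (hA : Tilted κ c p v μ A)
    {ε : ℝ} (hε : 0 < ε) : ∀ᵐ ω ∂μ, ∀ᶠ n : ℕ in atTop,
      ¬ ((up (A ω) n ∧ (mx (A ω) n : ℝ) ≤ 2 * b0 κ c n) ∧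
        ∀ j, n ≤ j → j < n + ⌈ε * b0 κ c n⌉₊ → j ∉ A ω) := by
  obtain ⟨D, hD, hw⟩ := short_window hκ hc hp hv hε
  obtain ⟨N, hN⟩ := eventually_atTop.1 hw
  let G : ℕ → Set Ω := fun k => ⋃ n ∈ Ico (2 ^ k) (2 ^ (k + 1)),
    {ω | (up (A ω) n ∧ mx (A ω) n ≤ ⌊2 * b0 κ c (2 ^ (k + 1))⌋₊) ∧
      ∀ j, n ≤ j → j < n + ⌈ε * b0 κ c n⌉₊ → j ∉ A ω}
  have hG : ∀ k, N ≤ 2 ^ k → μ.real (G k) ≤
      Real.exp (-(D * √(Real.log ((2 ^ k : ℕ) : ℝ)))) * (2 * b0 κ c (2 ^ (k + 1))) := by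
    intro k hk
    have hb := Pool.Agent.Q177.RC.b0_nonneg (κ := κ) hc (2 ^ (k + 1))
    refine (measureReal_biUnion_finset_le _ _).trans ?_
    have h1 : ∀ n ∈ Ico (2 ^ k) (2 ^ (k + 1)), μ.real {ω | (up (A ω) n ∧
        mx (A ω) n ≤ ⌊2 * b0 κ c (2 ^ (k + 1))⌋₊) ∧ ∀ j, n ≤ j → j < n + ⌈ε * b0 κ c n⌉₊ → j ∉ A ω} ≤
        Real.exp (-(D * √(Real.log ((2 ^ k : ℕ) : ℝ)))) *
          Pr (tilt p (fun n => 2 * b0 κ c n) v) n (fun T => up (T : Set ℕ) n ∧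
            mx (T : Set ℕ) n ≤ ⌊2 * b0 κ c (2 ^ (k + 1))⌋₊) := by
      intro n hn
      have h2 := mem_Ico.1 hn
      refine (n2 hp hv hA n _ _).trans (mul_le_mul_of_nonneg_right ?_ (Pr_nonneg (tilt01 hp hv) _ _))
      refine (hN n (by omega)).trans (Real.exp_le_exp.2 ?_)
      have h3 : √(Real.log ((2 ^ k : ℕ) : ℝ)) ≤ √(Real.log n) := by
        refine Real.sqrt_le_sqrt (Real.log_le_log ?_ ?_)
        · positivity
        · exact_mod_cast h2.1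
      have h4 := mul_le_mul_of_nonneg_left h3 hD.le
      linarith
    refine (sum_le_sum h1).trans ?_
    rw [← mul_sum]
    refine mul_le_mul_of_nonneg_left ?_ (Real.exp_nonneg _)
    refine (Pr_up_sum (tilt01 hp hv) _ (2 ^ (k + 1)) _ fun n hn => (mem_Ico.1 hn).2.le).trans ?_
    exact Nat.floor_le (by linarith)
  have hsum : Summable (fun k : ℕ => μ.real (G k)) := by
    refine Summable.of_norm_bounded_eventually_nat (block_summable hκ hc hD) ?_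
    filter_upwards [eventually_ge_atTop N] with k hk
    rw [Real.norm_of_nonneg measureReal_nonneg]
    exact hG k (hk.trans (Nat.lt_two_pow_self).le)
  have hne : ∑' k : ℕ, μ (G k) ≠ ⊤ := by
    have h1 := hsum.tsum_ofReal_ne_top
    have h2 : ∀ k : ℕ, ENNReal.ofReal (μ.real (G k)) = μ (G k) :=
      fun k => ofReal_measureReal (measure_ne_top _ _)
    rwa [tsum_congr h2] at h1
  filter_upwards [ae_eventually_notMem hne] with ω hω
  obtain ⟨k₀, hk₀⟩ := eventually_atTop.1 hω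
  filter_upwards [eventually_ge_atTop (2 ^ k₀)] with n hn hbad
  have hn0 : n ≠ 0 := by
    have : 0 < 2 ^ k₀ := by positivity
    omega
  have hk1 : k₀ ≤ Nat.log 2 n := Nat.le_log_of_pow_le one_lt_two hn
  have h1 : 2 ^ Nat.log 2 n ≤ n := Nat.pow_log_le_self 2 hn0
  have h2 : n < 2 ^ (Nat.log 2 n + 1) := Nat.lt_pow_succ_log_self one_lt_two n
  apply hk₀ (Nat.log 2 n) hk1
  simp only [G, Set.mem_iUnion, exists_prop]
  refine ⟨n, mem_Ico.2 ⟨h1, h2⟩, ⟨hbad.1.1, ?_⟩, hbad.2⟩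
  apply Nat.le_floor
  have h3 := Pool.Agent.Q177.RC.b0_mono hκ hc (by omega) h2.le
  linarith [hbad.1.2]

theorem ae_inf (hκ : 0 < κ) (hc : 0 < c) (hp : Mod κ c p) (hv : TiltOK p v) (hA : Tilted κ c p v μ A) :
    ∀ᵐ ω ∂μ, ∀ N : ℕ, ∃ a, N ≤ a ∧ a ∈ A ω := by
  rw [ae_all_iff]
  intro N
  obtain ⟨D, hD, hw⟩ := short_window hκ hc hp hv one_pos
  have h1 : ∀ᶠ n : ℕ in atTop, μ.real {ω | ¬ ∃ a, N ≤ a ∧ a ∈ A ω} ≤ Real.exp (-(D * √(Real.log n))) := by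
    filter_upwards [hw, eventually_ge_atTop N] with n hn hN
    refine le_trans ?_ ((n3 hp hv hA n ⌈1 * b0 κ c n⌉₊).trans hn)
    refine measureReal_mono ?_
    intro ω hω j h2 _ h4
    exact hω ⟨j, hN.trans h2, h4⟩
  have h2 : Tendsto (fun n : ℕ => Real.exp (-(D * √(Real.log n)))) atTop (𝓝 0) := by
    refine Real.tendsto_exp_atBot.comp ?_
    refine tendsto_neg_atTop_atBot.comp ?_
    exact (Real.tendsto_sqrt_atTop.comp Pool.Agent.Q237.RC.tendsto_log_nat).const_mul_atTop hD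
  have h3 : μ.real {ω | ¬ ∃ a, N ≤ a ∧ a ∈ A ω} ≤ 0 := ge_of_tendsto h2 h1
  have h4 : μ.real {ω | ¬ ∃ a, N ≤ a ∧ a ∈ A ω} = 0 := le_antisymm h3 measureReal_nonneg
  rw [ae_iff]
  exact (measureReal_eq_zero_iff).1 h4

end

theorem tendsto_b0 {κ c : ℝ} (hκ : 0 < κ) (hc : 0 < c) : Tendsto (fun n : ℕ => b0 κ c n) atTop atTop := by
  unfold b0
  exact ((tendsto_rpow_atTop (by linarith)).comp Pool.Agent.Q237.RC.tendsto_log_nat).atTop_div_const hc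

theorem tup_small {κ c : ℝ} {p v : ℕ → ℝ} (hκ : 0 < κ) (hc : 0 < c) (hp : Mod κ c p) (hv : TiltOK p v)
    {Ω : Type} [MeasurableSpace Ω] {μ : Measure Ω} [IsProbabilityMeasure μ] {A : Ω → Set ℕ}
    (hA : Tilted κ c p v μ A) {ε : ℝ} (hε : 0 < ε) (hε1 : ε ≤ 1) :
    ∀ᵐ ω ∂μ, ∀ᶠ n : ℕ in atTop, (mx (A ω) n : ℝ) ≤ (1 + 2 * ε) * b0 κ c n := by
  filter_upwards [ae_n1 hκ hc hp hv hA hε, ae_n2 hκ hc hp hv hA hε, ae_inf hκ hc hp hv hA]
    with ω h1 h2 h3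
  obtain ⟨N, hN⟩ := eventually_atTop.1 (h1.and h2)
  obtain ⟨a, ha1, ha⟩ := h3 N
  have hmono : ∀ m n : ℕ, 1 ≤ m → m ≤ n → b0 κ c m ≤ b0 κ c n :=
    fun m n hm hmn => Pool.Agent.Q177.RC.b0_mono hκ hc hm hmn
  have h4 := det ha hmono (Pool.Agent.Q177.RC.b0_nonneg hc) hε hε1
    (fun n hn => (hN n (by omega)).1) (fun n hn => (hN n (by omega)).2)
  have h5 := det2 (f := fun n => (1 + 2 * ε) * b0 κ c n)
    (fun m n hm hmn => mul_le_mul_of_nonneg_left (hmono m n hm hmn) (by linarith)) h4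
  have h6 : Tendsto (fun n : ℕ => (1 + 2 * ε) * b0 κ c n) atTop atTop :=
    (tendsto_b0 hκ hc).const_mul_atTop (by linarith)
  filter_upwards [h6.eventually_ge_atTop (mx (A ω) (a + 1) : ℝ), eventually_ge_atTop (a + 1)] with n h7 h8
  have h9 := h5 n h8
  rwa [max_eq_right h7] at h9

theorem t_TUP : J_TUP := by
  intro κ c p v hκ hc hp hv Ω _ μ _ A hA ε hε
  have h1 : 0 < min (ε / 2) 1 := lt_min (by linarith) one_pos
  filter_upwards [tup_small hκ hc hp hv hA h1 (min_le_right _ _)] with ω h2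
  filter_upwards [h2] with n h3
  refine h3.trans (mul_le_mul_of_nonneg_right ?_ (Pool.Agent.Q177.RC.b0_nonneg hc n))
  have := min_le_left (ε / 2) 1
  linarith

end Pool.Agent.Q150.RC
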