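import Pool.Agent.Q237.RC.ELE
import Pool.Agent.Q299.RC.SMG
import Pool.Agent.Q227.RC.Til
import Pool.Agent.Q177.RC.MLO

/-!
# Project RC, job TUP, part 1: finite sums and the deterministic part
-/

set_option autoImplicit false

namespace Pool.Agent.Q150.RC

open Finset MeasureTheory Filter Pool.Agent.Q120.ET Pool.Agent.Q120.ME Pool.Agent.Q120.RC
open scoped Topology

/-! ### finite sums -/

theorem seqlaw_window (r : ℕ → Finset ℕ → ℝ) {x y : ℕ} (h : x ≤ y) {T : Finset ℕ} (hT : T ⊆ range x) :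
    seqlaw r y T = seqlaw r x T * ∏ j ∈ Ico x y, (1 - r j T) := by
  unfold seqlaw
  rw [← prod_range_mul_prod_Ico _ h]
  congr 1
  refine prod_congr rfl fun j hj => ?_
  have h1 := (mem_Ico.1 hj).1
  have h2 : j ∉ T := fun h3 => by
    have := mem_range.1 (hT h3)
    omega
  rw [if_neg h2, Pool.Agent.Q299.RC.pre_self (hT.trans (range_mono h1))]

open Classical in
/-- The probability of `F` under the sequential law. -/
noncomputable def Pr (r : ℕ → Finset ℕ → ℝ) (N : ℕ) (F : Finset ℕ → Prop) : ℝ :=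
  ∑ T ∈ (range N).powerset with F T, seqlaw r N T

theorem Pr_nonneg {r : ℕ → Finset ℕ → ℝ} (hr : ∀ n T, 0 ≤ r n T ∧ r n T ≤ 1) (N : ℕ) (F : Finset ℕ → Prop) :
    0 ≤ Pr r N F := by
  classical
  exact sum_nonneg fun T _ => Pool.Agent.Q299.RC.seqlaw_nonneg hr N T

theorem Pr_le_one {r : ℕ → Finset ℕ → ℝ} (hr : ∀ n T, 0 ≤ r n T ∧ r n T ≤ 1) (N : ℕ) (F : Finset ℕ → Prop) :
    Pr r N F ≤ 1 := by
  classical
  have h1 := (Pool.Agent.Q299.RC.t_SMG r N N le_rfl).1
  rw [← h1]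
  exact sum_le_sum_of_subset_of_nonneg (filter_subset _ _)
    fun T _ _ => Pool.Agent.Q299.RC.seqlaw_nonneg hr N T

theorem Pr_window {r : ℕ → Finset ℕ → ℝ} (hr : ∀ n T, 0 ≤ r n T ∧ r n T ≤ 1) {x y : ℕ} (hxy : x ≤ y)
    (q : ℕ → ℝ) (F : Finset ℕ → Prop)
    (hF : ∀ T : Finset ℕ, T ⊆ range x → F T → ∀ j, x ≤ j → j < y → q j ≤ r j T) :
    Pr r y (fun T => F T ∧ ∀ j, x ≤ j → j < y → j ∉ T) ≤ (∏ j ∈ Ico x y, (1 - q j)) * Pr r x F := by
  classical
  have h1 : (range y).powerset.filter (fun T => F T ∧ ∀ j, x ≤ j → j < y → j ∉ T) =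
      (range x).powerset.filter F := by
    ext T
    simp only [mem_filter, mem_powerset]
    constructor
    · rintro ⟨h1, h2, h3⟩
      refine ⟨fun j hj => ?_, h2⟩
      have h4 := mem_range.1 (h1 hj)
      rw [mem_range]
      by_contra h5
      exact h3 j (by omega) h4 hj
    · rintro ⟨h1, h2⟩
      refine ⟨h1.trans (range_mono hxy), h2, fun j h3 _ h4 => ?_⟩
      have := mem_range.1 (h1 h4)
      omega
  have h2 : Pr r y (fun T => F T ∧ ∀ j, x ≤ j → j < y → j ∉ T) =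
      ∑ T ∈ (range x).powerset with F T, seqlaw r y T := by
    unfold Pr
    rw [← h1]
    refine sum_congr ?_ fun _ _ => rfl
    ext T
    simp only [mem_filter]
  rw [h2]
  unfold Pr
  rw [mul_sum]
  refine sum_le_sum fun T hT => ?_
  obtain ⟨h3, h4⟩ := mem_filter.1 hT
  rw [mem_powerset] at h3
  rw [seqlaw_window r hxy h3, mul_comm]
  refine mul_le_mul_of_nonneg_right ?_ (Pool.Agent.Q299.RC.seqlaw_nonneg hr x T)
  refine prod_le_prod (fun j _ => by linarith [(hr j T).2]) fun j hj => ?_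
  have h5 := mem_Ico.1 hj
  linarith [hF T h3 h4 j h5.1 h5.2]

theorem Pr_pre (r : ℕ → Finset ℕ → ℝ) {x y : ℕ} (hxy : x ≤ y) (F : Finset ℕ → Prop)
    (hF : ∀ T : Finset ℕ, F (pre T x) ↔ F T) : Pr r y F = Pr r x F := by
  classical
  have h1 := Pool.Agent.Q299.RC.smg_aux r x y hxy (fun T => if F T then 1 else 0)
  simp only [hF, mul_ite, mul_one, mul_zero] at h1
  rw [← sum_filter, ← sum_filter] at h1
  exact h1

open Classical in
theorem card_up_le (S : Set ℕ) (s : Finset ℕ) (M : ℕ) :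
    (s.filter (fun n => up S n ∧ mx S n ≤ M)).card ≤ M := by
  have h1 : (s.filter (fun n => up S n ∧ mx S n ≤ M)).card ≤ (Icc 1 M).card := by
    refine card_le_card_of_injOn (mx S) ?_ ?_
    · intro n hn
      have h1 := (mem_filter.1 hn).2
      have h2 := up_mx h1.1
      simp only [coe_Icc, Set.mem_Icc]
      omega
    · intro m hm n hn hmn
      have h1 := (mem_filter.1 hm).2
      have h2 := (mem_filter.1 hn).2
      by_contra h3
      rcases Nat.lt_or_gt_of_ne h3 with h4 | h4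
      · have h5 := mx_mono S (show m ≤ n - 1 by omega)
        have h6 := up_mx h2.1
        omega
      · have h5 := mx_mono S (show n ≤ m - 1 by omega)
        have h6 := up_mx h1.1
        omega
  rwa [Nat.card_Icc, Nat.add_sub_cancel] at h1

/-- the expected number of up steps with a short run -/
theorem Pr_up_sum {r : ℕ → Finset ℕ → ℝ} (hr : ∀ n T, 0 ≤ r n T ∧ r n T ≤ 1) (s : Finset ℕ) (N M : ℕ)
    (hs : ∀ n ∈ s, n ≤ N) :
    ∑ n ∈ s, Pr r n (fun T => up (T : Set ℕ) n ∧ mx (T : Set ℕ) n ≤ M) ≤ M := by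
  classical
  have h1 : ∀ n ∈ s, Pr r n (fun T => up (T : Set ℕ) n ∧ mx (T : Set ℕ) n ≤ M) =
      ∑ T ∈ (range N).powerset, if up (T : Set ℕ) n ∧ mx (T : Set ℕ) n ≤ M then seqlaw r N T else 0 := by
    intro n hn
    rw [← Pr_pre r (hs n hn) _ (fun T => by rw [up_pre, mx_pre])]
    unfold Pr
    rw [sum_filter]
    refine sum_congr rfl fun T _ => ?_
    by_cases h2 : up (T : Set ℕ) n ∧ mx (T : Set ℕ) n ≤ M
    · rw [if_pos h2, if_pos h2]
    · rw [if_neg h2, if_neg h2]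
  rw [sum_congr rfl h1, sum_comm]
  have h2 : ∀ T ∈ (range N).powerset, (∑ n ∈ s, if up (T : Set ℕ) n ∧ mx (T : Set ℕ) n ≤ M then
      seqlaw r N T else 0) ≤ seqlaw r N T * M := by
    intro T _
    rw [← sum_filter, sum_const, nsmul_eq_mul, mul_comm]
    refine mul_le_mul_of_nonneg_left ?_ (Pool.Agent.Q299.RC.seqlaw_nonneg hr N T)
    exact_mod_cast card_up_le (T : Set ℕ) s M
  refine (sum_le_sum h2).trans ?_
  rw [← sum_mul, (Pool.Agent.Q299.RC.t_SMG r N N le_rfl).1, one_mul]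

/-! ### the deterministic part -/

theorem up_next {S : Set ℕ} {n : ℕ} (h : up S n) (h1 : n ∉ S) : up S (n + 1) := by
  have h2 := up_pos h
  have h3 := mx_le S n
  refine (up_of_run (g := mx S n + 1) (by omega) (fun j h4 h5 => ?_) ?_).1
  · rcases Nat.lt_or_ge j n with h6 | h6
    · exact up_run h j (by omega) h6
    · have : j = n := by omega
      rw [this]
      exact h1
  · simp

theorem not_up_window {S : Set ℕ} {n j : ℕ} (hn : ¬ up S n) (hj : j ≤ n)
    (h : ∀ i, j ≤ i → i < n → i ∉ S) : ¬ up S j := by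
  intro h1
  apply hn
  induction n, hj using Nat.le_induction with
  | base => exact h1
  | succ m hm ih =>
    by_cases h2 : up S m
    · exact up_next h2 (h m hm (by omega))
    · exact absurd (ih h2 (fun i h3 h4 => h i h3 (by omega))) h2

/-- the block of the up steps -/
theorem block_start {S : Set ℕ} {a : ℕ} (ha : a ∈ S) (n : ℕ) (hn : a + 1 ≤ n) (h : up S n) :
    ∃ n', a + 1 < n' ∧ n' ≤ n ∧ up S n' ∧ ¬ up S (n' - 1) ∧ mx S n = mx S n' + (n - n') ∧
      ∀ j, n' ≤ j → j < n → j ∉ S := by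
  induction n, hn using Nat.le_induction with
  | base => exact absurd h (not_up_of_mem ha)
  | succ n hn ih =>
    by_cases h1 : up S n
    · obtain ⟨n', h2, h3, h4, h5, h6, h7⟩ := ih h1
      refine ⟨n', h2, by omega, h4, h5, ?_, ?_⟩
      · have h8 := up_mx h
        simp only [Nat.add_sub_cancel] at h8
        omega
      · intro j h8 h9
        rcases Nat.lt_or_ge j n with h10 | h10
        · exact h7 j h8 h10
        · have h11 : j = n := by omega
          have h12 := up_mx h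
          rw [h11]
          exact up_run h n (by omega) (by omega)
    · exact ⟨n + 1, by omega, le_rfl, h, by simpa using h1, by omega, fun j h2 h3 => by omega⟩

/-- The deterministic part. -/
theorem det {S : Set ℕ} {a : ℕ} (ha : a ∈ S) {b : ℕ → ℝ} (hb : ∀ m n : ℕ, 1 ≤ m → m ≤ n → b m ≤ b n)
    (hb0 : ∀ n, 0 ≤ b n) {ε : ℝ} (hε : 0 < ε) (hε1 : ε ≤ 1)
    (h1 : ∀ n, a ≤ n → ¬ ∀ j, n - ⌊(1 + ε) * b n⌋₊ ≤ j → j < n → (¬ up S j ∧ j ∉ S))
    (h2 : ∀ n, a ≤ n → ¬ ((up S n ∧ (mx S n : ℝ) ≤ 2 * b n) ∧ ∀ j, n ≤ j → j < n + ⌈ε * b n⌉₊ → j ∉ S)) :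
    ∀ n, a + 1 ≤ n → up S n → (mx S n : ℝ) ≤ (1 + 2 * ε) * b n := by
  intro n hn h
  obtain ⟨n', h3, h4, h5, h6, h7, h8⟩ := block_start ha n hn h
  have h9 : mx S n' < ⌊(1 + ε) * b n'⌋₊ := by
    by_contra h10
    rw [not_lt] at h10
    refine h1 n' (by omega) fun j h11 h12 => ?_
    have h13 : ∀ i, j ≤ i → i < n' → i ∉ S := fun i h14 h15 => up_run h5 i (by omega) h15
    exact ⟨not_up_window h6 (by omega) (fun i h14 h15 => h13 i h14 (by omega)), h13 j le_rfl h12⟩
  have h10 : (mx S n' : ℝ) ≤ (1 + ε) * b n' := by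
    have h11 : ((⌊(1 + ε) * b n'⌋₊ : ℕ) : ℝ) ≤ (1 + ε) * b n' :=
      Nat.floor_le (mul_nonneg (by linarith) (hb0 n'))
    have h12 : (mx S n' : ℝ) ≤ (⌊(1 + ε) * b n'⌋₊ : ℕ) := by exact_mod_cast h9.le
    linarith
  have h11 : (mx S n' : ℝ) ≤ 2 * b n' := by
    refine h10.trans (mul_le_mul_of_nonneg_right (by linarith) (hb0 n'))
  have h12 : n < n' + ⌈ε * b n'⌉₊ := by
    by_contra h13
    rw [not_lt] at h13
    exact h2 n' (by omega) ⟨⟨h5, h11⟩, fun j h14 h15 => h8 j h14 (by omega)⟩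
  have h13 : ((n - n' : ℕ) : ℝ) ≤ ε * b n' := by
    have h14 : n - n' < ⌈ε * b n'⌉₊ := by omega
    exact (Nat.lt_ceil.1 h14).le
  have h14 := hb n' n (by omega) h4
  rw [h7]
  push_cast [h4] at h13 ⊢
  nlinarith

theorem det2 {S : Set ℕ} {a : ℕ} {f : ℕ → ℝ} (hf : ∀ m n : ℕ, 1 ≤ m → m ≤ n → f m ≤ f n)
    (h : ∀ n, a + 1 ≤ n → up S n → (mx S n : ℝ) ≤ f n) (n : ℕ) (hn : a + 1 ≤ n) :
    (mx S n : ℝ) ≤ max (mx S (a + 1) : ℝ) (f n) := by
  induction n, hn using Nat.le_induction with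
  | base => exact le_max_left _ _
  | succ n hn ih =>
    by_cases h1 : up S (n + 1)
    · exact (h (n + 1) (by omega) h1).trans (le_max_right _ _)
    · have h2 := mx_of_not_up h1
      rw [Nat.add_sub_cancel] at h2
      rw [h2]
      exact ih.trans (max_le_max le_rfl (hf n (n + 1) (by omega) (by omega)))

end Pool.Agent.Q150.RC
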