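import Pool.Agent.Q150.RC.TUPa

/-!
# Project RC, job TUP, part 2: the estimates
-/

set_option autoImplicit false

namespace Pool.Agent.Q150.RC

open Finset MeasureTheory Filter Pool.Agent.Q120.ET Pool.Agent.Q120.ME Pool.Agent.Q120.RC
open scoped Topology

theorem prod_le_exp {s : Finset ℕ} {f : ℕ → ℝ} {t : ℝ} (h1 : ∀ j ∈ s, f j ≤ 1) (h : ∀ j ∈ s, t ≤ f j) :
    ∏ j ∈ s, (1 - f j) ≤ Real.exp (-(t * s.card)) := by
  calc ∏ j ∈ s, (1 - f j) ≤ ∏ _j ∈ s, Real.exp (-t) := by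
        refine prod_le_prod (fun j hj => by linarith [h1 j hj]) fun j hj => ?_
        linarith [h j hj, Real.add_one_le_exp (-t)]
    _ = Real.exp (-(t * s.card)) := by
        rw [prod_const, ← Real.exp_nat_mul]
        congr 1
        ring

theorem rate_low {κ c : ℝ} {p v : ℕ → ℝ} (hκ : 0 < κ) (hc : 0 < c) (hp : Mod κ c p) (hv : TiltOK p v) :
    ∀ᶠ n : ℕ in atTop, ∀ j, n ≤ j → j ≤ 2 * n →
      c / 2 * (2 * Real.log n) ^ (-(κ + 1 / 2) : ℝ) ≤ min (v j) 1 * p j := by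
  have h1 : ∀ᶠ n : ℕ in atTop, c / 2 ≤ p n * Real.log n ^ κ :=
    hp.lim.eventually_const_le (by linarith)
  obtain ⟨N, hN⟩ := eventually_atTop.1 (h1.and hv.slow)
  filter_upwards [eventually_ge_atTop N, eventually_ge_atTop 3] with n hn hn3 j hj hj2
  obtain ⟨h2, h3⟩ := hN j (by omega)
  have hn0 : (0 : ℝ) < n := by
    have : 0 < n := by omega
    exact_mod_cast this
  have hj0 : (0 : ℝ) < j := by
    have : 0 < j := by omega
    exact_mod_cast this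
  have hL1 : 1 ≤ Real.log n := by
    rw [Real.le_log_iff_exp_le hn0]
    have h4 := Real.exp_one_lt_d9
    have h5 : (3 : ℝ) ≤ n := by exact_mod_cast hn3
    linarith
  have hl1 : 1 ≤ Real.log j := by
    have h4 : Real.log n ≤ Real.log j := Real.log_le_log hn0 (by exact_mod_cast hj)
    linarith
  have hl2 : Real.log j ≤ 2 * Real.log n := by
    have h4 : Real.log j ≤ Real.log (2 * n) := Real.log_le_log hj0 (by exact_mod_cast hj2)
    rw [Real.log_mul two_ne_zero hn0.ne'] at h4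
    have h5 := Real.log_two_lt_d9
    linarith
  have h4 : (2 * Real.log n) ^ (-(κ + 1 / 2) : ℝ) ≤ Real.log j ^ (-(κ + 1 / 2) : ℝ) :=
    Real.rpow_le_rpow_of_nonpos (by linarith) hl2 (by linarith)
  have h5 : Real.log j ^ (-(κ + 1 / 2) : ℝ) = Real.log j ^ (-κ) * Real.log j ^ (-(1 / 2) : ℝ) := by
    rw [← Real.rpow_add (by linarith)]
    congr 1
    ring
  have h6 : c / 2 * Real.log j ^ (-κ) ≤ p j := by
    rw [Real.rpow_neg (by linarith), ← div_eq_mul_inv, div_le_iff₀ (Real.rpow_pos_of_pos (by linarith) _)]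
    exact h2
  have h7 : Real.log j ^ (-(1 / 2) : ℝ) ≤ min (v j) 1 := by
    refine le_min h3 (Real.rpow_le_one_of_one_le_of_nonpos hl1 (by norm_num))
  have h8 : 0 ≤ Real.log j ^ (-(1 / 2) : ℝ) := Real.rpow_nonneg (by linarith) _
  calc c / 2 * (2 * Real.log n) ^ (-(κ + 1 / 2) : ℝ) ≤ c / 2 * Real.log j ^ (-(κ + 1 / 2) : ℝ) :=
        mul_le_mul_of_nonneg_left h4 (by linarith)
    _ = Real.log j ^ (-(1 / 2) : ℝ) * (c / 2 * Real.log j ^ (-κ)) := by
        rw [h5]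
        ring
    _ ≤ min (v j) 1 * p j := mul_le_mul h7 h6
        (mul_nonneg (by linarith) (Real.rpow_nonneg (by linarith) _)) (h8.trans h7)

/-- a window of length `ε b0` is rarely empty, for all tilts -/
theorem short_window {κ c : ℝ} {p v : ℕ → ℝ} (hκ : 0 < κ) (hc : 0 < c) (hp : Mod κ c p) (hv : TiltOK p v)
    {ε : ℝ} (hε : 0 < ε) : ∃ D : ℝ, 0 < D ∧ ∀ᶠ n : ℕ in atTop,
      ∏ j ∈ Ico n (n + ⌈ε * b0 κ c n⌉₊), (1 - min (v j) 1 * p j) ≤ Real.exp (-(D * √(Real.log n))) := by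
  refine ⟨ε / 2 * 2 ^ (-(κ + 1 / 2) : ℝ), by positivity, ?_⟩
  filter_upwards [rate_low hκ hc hp hv, Pool.Agent.Q237.RC.log_pow_le (κ + 1) 1 (c / ε) one_pos (by positivity),
    Pool.Agent.Q237.RC.tendsto_log_nat.eventually_gt_atTop 0] with n h1 h2 h3
  have hy : ⌈ε * b0 κ c n⌉₊ ≤ n := by
    apply Nat.ceil_le.2
    unfold b0
    rw [Real.rpow_one] at h2
    calc ε * (Real.log n ^ (κ + 1) / c) ≤ ε * ((c / ε * n) / c) := by gcongr
      _ = n := by field_simp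
  have hy2 : ε * b0 κ c n ≤ (⌈ε * b0 κ c n⌉₊ : ℕ) := Nat.le_ceil _
  refine (prod_le_exp (t := c / 2 * (2 * Real.log n) ^ (-(κ + 1 / 2) : ℝ)) ?_ ?_).trans ?_
  · intro j _
    have h4 : min (v j) 1 * p j ≤ 1 * p j := mul_le_mul_of_nonneg_right (min_le_right _ _) (hp.pos j).le
    linarith [hp.lt_one j]
  · intro j hj
    have h4 := mem_Ico.1 hj
    exact h1 j h4.1 (by omega)
  · apply Real.exp_le_exp.2
    rw [Nat.card_Ico, Nat.add_sub_cancel_left]
    have h4 : c / 2 * (2 * Real.log n) ^ (-(κ + 1 / 2) : ℝ) * (ε * b0 κ c n) ≤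
        c / 2 * (2 * Real.log n) ^ (-(κ + 1 / 2) : ℝ) * (⌈ε * b0 κ c n⌉₊ : ℕ) :=
      mul_le_mul_of_nonneg_left hy2 (by positivity)
    have h5 : c / 2 * (2 * Real.log n) ^ (-(κ + 1 / 2) : ℝ) * (ε * b0 κ c n) =
        ε / 2 * 2 ^ (-(κ + 1 / 2) : ℝ) * √(Real.log n) := by
      unfold b0
      rw [Real.mul_rpow (by norm_num) h3.le, Real.sqrt_eq_rpow]
      have h6 : Real.log n ^ (-(κ + 1 / 2) : ℝ) * Real.log n ^ (κ + 1) = Real.log n ^ (1 / 2 : ℝ) := by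
        rw [← Real.rpow_add h3]
        congr 1
        ring
      rw [← h6]
      field_simp
    linarith

theorem block_summable {κ c : ℝ} (hκ : 0 < κ) (hc : 0 < c) {D : ℝ} (hD : 0 < D) :
    Summable fun k : ℕ => Real.exp (-(D * √(Real.log ((2 ^ k : ℕ) : ℝ)))) * (2 * b0 κ c (2 ^ (k + 1))) := by
  have hl2 : 0 < Real.log 2 := Real.log_pos (by norm_num)
  have e1 : ∀ k : ℕ, Real.log ((2 ^ k : ℕ) : ℝ) = (k : ℝ) * Real.log 2 := by
    intro k
    push_cast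
    rw [Real.log_pow]
  have h1 : Tendsto (fun k : ℕ => √(Real.log ((2 ^ k : ℕ) : ℝ))) atTop atTop := by
    refine Real.tendsto_sqrt_atTop.comp ?_
    simp only [e1]
    exact tendsto_natCast_atTop_atTop.atTop_mul_const hl2
  have h2 := (tendsto_rpow_mul_exp_neg_mul_atTop_nhds_zero (2 * (κ + 3)) D hD).comp h1
  have h3 : ∀ᶠ k : ℕ in atTop, Real.exp (-(D * √(Real.log ((2 ^ k : ℕ) : ℝ)))) * (2 * b0 κ c (2 ^ (k + 1))) ≤
      2 * 2 ^ (κ + 1) / c / Real.log 2 ^ 2 * (1 / (k : ℝ) ^ 2) := by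
    filter_upwards [h2.eventually_le_const one_pos, eventually_ge_atTop 1] with k hk hk1
    have hk0 : (0 : ℝ) < k := by exact_mod_cast hk1
    have hx0 : 0 < (k : ℝ) * Real.log 2 := by positivity
    simp only [Function.comp_apply, e1] at hk
    have h4 : √((k : ℝ) * Real.log 2) ^ (2 * (κ + 3)) = ((k : ℝ) * Real.log 2) ^ (κ + 3) := by
      rw [Real.sqrt_eq_rpow, ← Real.rpow_mul hx0.le]
      congr 1
      ring
    rw [h4] at hk
    have h5 : b0 κ c (2 ^ (k + 1)) ≤ 2 ^ (κ + 1) * ((k : ℝ) * Real.log 2) ^ (κ + 1) / c := by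
      unfold b0
      have h6 : Real.log ((2 ^ (k + 1) : ℕ) : ℝ) = ((k : ℝ) + 1) * Real.log 2 := by
        rw [e1]
        push_cast
        ring
      rw [h6, ← Real.mul_rpow (by norm_num) hx0.le]
      have h7 : ((k : ℝ) + 1) * Real.log 2 ≤ 2 * ((k : ℝ) * Real.log 2) := by
        have h8 : (1 : ℝ) ≤ k := by exact_mod_cast hk1
        nlinarith
      exact div_le_div_of_nonneg_right (Real.rpow_le_rpow (by positivity) h7 (by linarith)) hc.le
    rw [e1]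
    have h6 : ((k : ℝ) * Real.log 2) ^ (κ + 3) = ((k : ℝ) * Real.log 2) ^ (κ + 1) * ((k : ℝ) * Real.log 2) ^ 2 := by
      rw [← Real.rpow_natCast _ 2, ← Real.rpow_add hx0]
      congr 1
      push_cast
      ring
    rw [h6] at hk
    obtain ⟨E, hE⟩ : ∃ E : ℝ, E = Real.exp (-(D * √((k : ℝ) * Real.log 2))) := ⟨_, rfl⟩
    have hE0 : 0 < E := by
      rw [hE]
      positivity
    have hk' : ((k : ℝ) * Real.log 2) ^ (κ + 1) * ((k : ℝ) * Real.log 2) ^ 2 * E ≤ 1 := by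
      rw [hE, ← neg_mul]
      exact hk
    rw [← hE]
    obtain ⟨X, hX⟩ : ∃ X : ℝ, X = ((k : ℝ) * Real.log 2) ^ (κ + 1) := ⟨_, rfl⟩
    rw [← hX] at hk' h5
    calc E * (2 * b0 κ c (2 ^ (k + 1))) ≤ E * (2 * (2 ^ (κ + 1) * X / c)) := by gcongr
      _ = 2 * 2 ^ (κ + 1) / c / Real.log 2 ^ 2 * ((X * ((k : ℝ) * Real.log 2) ^ 2 * E) / (k : ℝ) ^ 2) := by
          field_simp
      _ ≤ 2 * 2 ^ (κ + 1) / c / Real.log 2 ^ 2 * (1 / (k : ℝ) ^ 2) := by gcongr
  have h4 : Summable fun k : ℕ => 2 * 2 ^ (κ + 1) / c / Real.log 2 ^ 2 * (1 / (k : ℝ) ^ 2) :=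
    (Real.summable_one_div_nat_pow.2 one_lt_two).mul_left _
  refine Summable.of_norm_bounded_eventually_nat h4 ?_
  filter_upwards [h3] with k hk
  rw [Real.norm_of_nonneg (mul_nonneg (Real.exp_nonneg _)
    (mul_nonneg two_pos.le (Pool.Agent.Q177.RC.b0_nonneg hc _)))]
  exact hk

end Pool.Agent.Q150.RC
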